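import Pool.Agent.Work.MP_ac5cbe_gt.Stmt
import Pool.Agent.Work.MP_ac5cbe_gt.Main

set_option autoImplicit false

namespace Pool.Agent.Results.MP_ac5cbe_gt.CompleteHypersurfaces

/-- Codimension one case of the frozen statement `S13745`, in all dimensions: if a smooth immersion of
an `m`-manifold into Euclidean `(m + 1)`-space is complete for its induced length metric and satisfies
`Δ² x = 0` for the induced Laplace–Beltrami operator, then `Δ x = 0`, i.e. the hypersurface is
minimal. -/
theorem result (m : ℕ) (M : Type) [TopologicalSpace M] [T2Space M]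
    [ChartedSpace (EuclideanSpace ℝ (Fin m)) M]
    [IsManifold (modelWithCornersSelf ℝ (EuclideanSpace ℝ (Fin m))) ((⊤ : ℕ∞) : WithTop ℕ∞) M]
    (x : M → EuclideanSpace ℝ (Fin (m + 1))) (hx : Biharm.IsImm m x)
    (hc : Biharm.IsCompleteLen x) (hb : ∀ p : M, Biharm.lap m x (Biharm.lap m x x) p = 0) :
    ∀ p : M, Biharm.lap m x x p = 0 :=
  BH.main m M x hx.1 hx.2 (Biharm.len x) rfl hc (Biharm.gram m x) rfl (Biharm.lap m x) rfl hb

end Pool.Agent.Results.MP_ac5cbe_gt.CompleteHypersurfaces
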